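import Pool.Agent.GSW.P_APN
import Pool.Agent.GSW.P_CLS
import Pool.Agent.GSW.P_COE
import Pool.Agent.GSW.P_DEG
import Pool.Agent.GSW.P_FRM
import Pool.Agent.GSW.P_LIN
import Pool.Agent.GSW.P_LNV
import Pool.Agent.GSW.P_NIL
import Pool.Agent.GSW.P_NUM
import Pool.Agent.GSW.P_QUA
import Pool.Agent.GSW.P_REP
import Pool.Agent.GSW.P_SMF
import Pool.Agent.GSW.P_SUF
import Pool.Agent.GSW.P_TRC
import Pool.Agent.GSW.P_TRI
import Pool.Agent.GSW.P_UQF

set_option autoImplicit false

/-!
# MP_d7c7d1_co: the switching class of the Gold function `x ^ 3`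

Let `F` be a field with `2 ^ n` elements, `n ≥ 7`, let `u ≠ 0` be in `F`, and let `f : F → {0, 1}`
be any function. Then `x ^ 3 + u f(x)` is almost perfect nonlinear if and only if
`f(x) = Tr(al x ^ 3) + e Tr(u ^ (-3) x ^ 9) + Tr(la x) + c` with `Tr(al u) = 0` and bits `e`, `c`.
These are exactly `2 ^ (2 n + 1)` functions. So all APN functions which one obtains by changing one
coordinate function, in any way, of a function which is extended affine equivalent to `x ^ 3` lie
in at most four CCZ classes (two, if `n` is odd), for every `n`.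

Idea. `x ^ 3 + u f(x)` is APN iff the second derivatives of `f` in the directions `a, d` vanish
for all pairs with `a ^ 2 d + a d ^ 2 = u`. A bilinear alternating form vanishing on all these pairs
is determined by its coefficients with respect to `x ^ (2 ^ p) y ^ (2 ^ q)`; one puts
`d = a z`, `z ^ 2 + z = u a ^ (-3)`, and reads off the coefficients of `a ^ (1 + 2 ^ k)` in a
polynomial identity, where only one or two terms survive (an equation between sums of powers of
two modulo `2 ^ n - 1`). There is no such trilinear form, so `f` is quadratic.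
-/

namespace Pool.Agent.Results.MP_d7c7d1_co.GoldSwitch

open Pool.Agent.GSW

/-- `H` is extended affine equivalent to the function `x ^ 3` -/
def EACube {F : Type} [Field F] (H : F → F) : Prop :=
  ∃ (A B : F ≃+ F) (C : F →+ F) (b c : F), ∀ x, H x = A ((B x + b) ^ 3) + C x + c

/-- `G` is obtained from `H` by changing one coordinate: all differences are `0` or `u` -/
def Switch {F : Type} [Field F] (G H : F → F) : Prop :=
  ∃ u : F, u ≠ 0 ∧ ∀ x, G x = H x ∨ G x = H x + u

variable {F : Type} [Field F]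

lemma hTRC : T_TRC := p_TRC p_LIN
lemma hREP : T_REP := p_REP p_LIN
lemma hCOE : T_COE := p_COE p_NUM hTRC p_SMF
lemma hFRM : T_FRM := p_FRM p_LIN hTRC hREP hCOE
lemma hUQF : T_UQF := p_UQF p_LIN hTRC
lemma hTRI : T_TRI := p_TRI hFRM hUQF hTRC
lemma hDEG : T_DEG := p_DEG hTRI p_NIL
lemma hQUA : T_QUA := p_QUA hFRM hDEG hTRC
lemma hSUF : T_SUF := p_SUF (p_LNV hTRC) hTRC
lemma hCLS : T_CLS := p_CLS hTRC

/-- the first part -/
lemma part1 [Fintype F] [CharP F 2] (n : ℕ) (hn : 7 ≤ n) (hcard : Fintype.card F = 2 ^ n)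
    (u : F) (f : F → F) (hu : u ≠ 0) (hf : ∀ x, f x = 0 ∨ f x = 1) :
    IsAPN (fun x => x ^ 3 + u * f x) ↔
      ∃ al e la c : F, (e = 0 ∨ e = 1) ∧ (c = 0 ∨ c = 1) ∧ Tr n (al * u) = 0 ∧
        ∀ x, f x = Tr n (al * x ^ 3) + e * Tr n ((u ^ 3)⁻¹ * x ^ 9) + Tr n (la * x) + c := by
  rw [p_APN F u f hu hf]
  constructor
  · intro h
    obtain ⟨al, e, la, c, he, hc, h1, h2⟩ := hQUA F n hn hcard u f hu hf h
    exact ⟨al, e, la, c, he, hc, h1, h2⟩
  · rintro ⟨al, e, la, c, he, hc, h1, h2⟩
    have h := hSUF F n hn hcard u al e la c hu he hc h1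
    have hfe : f = fun x => Tr n (al * x ^ 3) + e * Tr n ((u ^ 3)⁻¹ * x ^ 9) +
        Tr n (la * x) + c := funext h2
    rw [hfe]
    exact h

/-- the normal forms -/
noncomputable def nf (n : ℕ) (g : F) (j : ℕ) : F → F :=
  if j < 3 then Nf n (g ^ j) else fun x => x ^ 3

/-- an APN function with all differences from `x ^ 3` in `{0, u}` -/
lemma normal [Fintype F] [CharP F 2] (n : ℕ) (hn : 7 ≤ n) (hcard : Fintype.card F = 2 ^ n)
    (u : F) (G : F → F) (hu : u ≠ 0) (hG : ∀ x, G x = x ^ 3 ∨ G x = x ^ 3 + u)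
    (hA : IsAPN G) : CCZ G (fun x => x ^ 3) ∨ CCZ G (Nf n u) := by
  classical
  have hGf : G = fun x => x ^ 3 + u * (if G x = x ^ 3 then 0 else 1) := by
    funext x
    show G x = x ^ 3 + u * (if G x = x ^ 3 then 0 else 1)
    by_cases h : G x = x ^ 3
    · rw [if_pos h, mul_zero, add_zero]; exact h
    · rw [if_neg h, mul_one]; exact (hG x).resolve_left h
  have hf : ∀ x, (if G x = x ^ 3 then (0 : F) else 1) = 0 ∨
      (if G x = x ^ 3 then (0 : F) else 1) = 1 := by
    intro x
    by_cases h : G x = x ^ 3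
    · left; rw [if_pos h]
    · right; rw [if_neg h]
  rw [hGf] at hA
  have h := (part1 n hn hcard u _ hu hf).1 hA
  obtain ⟨al, e, la, c, he, hc, h1, h2⟩ := h
  obtain ⟨-, -, -, h4, -⟩ := hCLS F n (by omega) hcard
  obtain ⟨k0, k1⟩ := h4 u al e la c hu he hc h1
  have hG2 : G = fun x => x ^ 3 + u * (Tr n (al * x ^ 3) + e * Tr n ((u ^ 3)⁻¹ * x ^ 9) +
      Tr n (la * x) + c) := by
    rw [hGf]
    funext x
    show x ^ 3 + u * (if G x = x ^ 3 then 0 else 1) = _
    rw [h2 x]
  rcases he with he | he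
  · left; rw [hG2]; exact k0 he
  · right; rw [hG2]; exact k1 he

/-- the additive permutation of `F × F` of an extended affine equivalence -/
def perm (A B : F ≃+ F) (C : F →+ F) : (F × F) ≃+ (F × F) where
  toFun z := (B z.1, A.symm (z.2 - C z.1))
  invFun z := (B.symm z.1, A z.2 + C (B.symm z.1))
  left_inv := by
    intro z
    refine Prod.ext ?_ ?_
    · show B.symm (B z.1) = z.1
      rw [AddEquiv.symm_apply_apply]
    · show A (A.symm (z.2 - C z.1)) + C (B.symm (B z.1)) = z.2
      rw [AddEquiv.symm_apply_apply, AddEquiv.apply_symm_apply, sub_add_cancel]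
  right_inv := by
    intro z
    refine Prod.ext ?_ ?_
    · show B (B.symm z.1) = z.1
      rw [AddEquiv.apply_symm_apply]
    · show A.symm (A z.2 + C (B.symm z.1) - C (B.symm z.1)) = z.2
      rw [add_sub_cancel_right, AddEquiv.symm_apply_apply]
  map_add' := by
    intro z w
    refine Prod.ext ?_ ?_
    · show B (z.1 + w.1) = B z.1 + B w.1
      rw [map_add]
    · show A.symm (z.2 + w.2 - C (z.1 + w.1)) = A.symm (z.2 - C z.1) + A.symm (w.2 - C w.1)
      rw [← map_add, map_add C]
      congr 1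
      abel

/-- reduction of extended affine equivalence -/
lemma reduce [Finite F] [CharP F 2] (G H : F → F) (hH : EACube H) (hS : Switch G H) (hA : IsAPN G) :
    ∃ (G' : F → F) (u : F), u ≠ 0 ∧ (∀ x, G' x = x ^ 3 ∨ G' x = x ^ 3 + u) ∧ IsAPN G' ∧
      CCZ G G' := by
  obtain ⟨A, B, C, b, c, hH⟩ := hH
  obtain ⟨u, hu, hS⟩ := hS
  refine ⟨fun y => A.symm (G (B.symm (y - b)) - C (B.symm (y - b)) - c), A.symm u, ?_, ?_, ?_, ?_⟩
  · intro h
    exact hu (by simpa using h)
  · intro y
    have hy := hH (B.symm (y - b))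
    rw [AddEquiv.apply_symm_apply, sub_add_cancel] at hy
    rcases hS (B.symm (y - b)) with h | h
    · left
      show A.symm (G (B.symm (y - b)) - C (B.symm (y - b)) - c) = y ^ 3
      rw [h, hy]
      have : A (y ^ 3) + C (B.symm (y - b)) + c - C (B.symm (y - b)) - c = A (y ^ 3) := by abel
      rw [this, AddEquiv.symm_apply_apply]
    · right
      show A.symm (G (B.symm (y - b)) - C (B.symm (y - b)) - c) = y ^ 3 + A.symm u
      rw [h, hy]
      have : A (y ^ 3) + C (B.symm (y - b)) + c + u - C (B.symm (y - b)) - c =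
        A (y ^ 3) + u := by abel
      rw [this, map_add, AddEquiv.symm_apply_apply]
  · intro a ha z
    have ha' : B.symm a ≠ 0 := by
      intro h
      exact ha (by simpa using h)
    have h0 := hA (B.symm a) ha' (A z + C (B.symm a))
    have hset : {x : F | (fun y => A.symm (G (B.symm (y - b)) - C (B.symm (y - b)) - c)) (x + a) +
        (fun y => A.symm (G (B.symm (y - b)) - C (B.symm (y - b)) - c)) x = z} ⊆
        (fun t => B t + b) '' {t : F | G (t + B.symm a) + G t = A z + C (B.symm a)} := by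
      intro x hx
      refine ⟨B.symm (x - b), ?_, ?_⟩
      · have hx' : A.symm (G (B.symm (x + a - b)) - C (B.symm (x + a - b)) - c) +
            A.symm (G (B.symm (x - b)) - C (B.symm (x - b)) - c) = z := hx
        have e : B.symm (x + a - b) = B.symm (x - b) + B.symm a := by
          rw [← map_add]
          congr 1
          abel
        rw [e, map_add C, ← map_add] at hx'
        have h2 := congrArg A hx'
        rw [AddEquiv.apply_symm_apply] at h2
        show G (B.symm (x - b) + B.symm a) + G (B.symm (x - b)) = A z + C (B.symm a)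
        rw [← h2]
        have t1 : (2 : F) = 0 := CharTwo.two_eq_zero
        linear_combination (C (B.symm (x - b)) + c) * t1
      · show B (B.symm (x - b)) + b = x
        rw [AddEquiv.apply_symm_apply, sub_add_cancel]
    exact (Set.ncard_le_ncard hset (Set.toFinite _)).trans
      ((Set.ncard_image_le (Set.toFinite _)).trans h0)
  · refine CLSx.ccz_mk (perm A B C) (b, - A.symm c) (fun x => B x + b) ?_ ?_
    · intro y
      refine ⟨B.symm (y - b), ?_⟩
      show B (B.symm (y - b)) + b = y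
      rw [AddEquiv.apply_symm_apply, sub_add_cancel]
    · intro x
      refine Prod.ext rfl ?_
      show A.symm (G x - C x) + - A.symm c =
        A.symm (G (B.symm (B x + b - b)) - C (B.symm (B x + b - b)) - c)
      rw [add_sub_cancel_right, AddEquiv.symm_apply_apply, map_sub A.symm (G x - C x) c,
        sub_eq_add_neg (A.symm (G x - C x))]

/-- the function with the given parameters -/
def fpar (n : ℕ) (u : F) (t : F × F × F × F) : F → F := fun x =>
  Tr n (t.1 * x ^ 3) + t.2.2.1 * Tr n ((u ^ 3)⁻¹ * x ^ 9) + Tr n (t.2.1 * x) + t.2.2.2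

lemma fpar_inj [Fintype F] [CharP F 2] (n : ℕ) (hn : 7 ≤ n) (hcard : Fintype.card F = 2 ^ n)
    (u : F) (hu : u ≠ 0) (s t : F × F × F × F) (hs : s.2.2.1 = 0 ∨ s.2.2.1 = 1)
    (ht : t.2.2.1 = 0 ∨ t.2.2.1 = 1) (h : fpar n u s = fpar n u t) : s = t := by
  obtain ⟨hadd, -, -, -, -, hnd, -⟩ := hTRC F n (by omega) hcard
  have t2 : (2 : F) = 0 := CharTwo.two_eq_zero
  obtain ⟨al, la, e, c⟩ := s
  obtain ⟨al', la', e', c'⟩ := t
  have h0 : Tr n (0 : F) = 0 := CLSx.tr_zero n
  have hx : ∀ x : F, Tr n ((al + al') * x ^ 3) + (e + e') * Tr n ((u ^ 3)⁻¹ * x ^ 9) +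
      Tr n ((la + la') * x) + (c + c') = 0 := by
    intro x
    have h1 : Tr n (al * x ^ 3) + e * Tr n ((u ^ 3)⁻¹ * x ^ 9) + Tr n (la * x) + c =
      Tr n (al' * x ^ 3) + e' * Tr n ((u ^ 3)⁻¹ * x ^ 9) + Tr n (la' * x) + c' := congrFun h x
    rw [add_mul al, add_mul la, hadd, hadd]
    linear_combination h1 + (Tr n (al' * x ^ 3) + e' * Tr n ((u ^ 3)⁻¹ * x ^ 9) +
      Tr n (la' * x) + c') * t2
  have hc : c + c' = 0 := by
    have h1 := hx 0
    rw [zero_pow (by norm_num), zero_pow (by norm_num), mul_zero, mul_zero, mul_zero, h0] at h1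
    simpa using h1
  have hE : Bit (e + e') := by
    rcases hs with hs | hs <;> rcases ht with ht | ht <;> simp only at hs ht <;> rw [hs, ht]
    · left; ring
    · right; ring
    · right; ring
    · left; linear_combination t2
  have hF : ∀ x y : F, Fm n u (al + al') (e + e') x y = 0 := by
    intro x y
    have h1 := hx (x + y)
    have h2 := hx x
    have h3 := hx y
    have e1 : (al + al') * (x + y) ^ 3 = (al + al') * x ^ 3 + (al + al') * y ^ 3 +
        (al + al') * (x ^ 2 * y + x * y ^ 2) := by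
      linear_combination (al + al') * (x ^ 2 * y + x * y ^ 2) * t2
    have e2 : (x + y) ^ 9 = x ^ 9 + y ^ 9 + (x ^ 8 * y + x * y ^ 8) := by
      have e3 : (x + y) ^ 8 = x ^ 8 + y ^ 8 := add_pow_char_pow x y 2 3
      rw [pow_succ, e3]
      ring
    rw [e1, e2, mul_add (u ^ 3)⁻¹, mul_add (u ^ 3)⁻¹, mul_add (la + la'), hadd, hadd, hadd, hadd,
      hadd] at h1
    unfold Fm
    linear_combination h1 - h2 - h3 + hc
  obtain ⟨hA, hE'⟩ := hUQF F n hn hcard u _ _ hu hE hF
  have hL : la + la' = 0 := by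
    apply hnd
    intro x
    have h1 := hx x
    rw [hA, hE', hc, zero_mul, zero_mul, h0] at h1
    simpa using h1
  have k : ∀ a b : F, a + b = 0 → a = b := by
    intro a b hab
    linear_combination hab - b * t2
  rw [k _ _ hA, k _ _ hL, k _ _ hE', k _ _ hc]

/-- the hyperplane of the parameter `al` -/
lemma ker_card [Fintype F] [CharP F 2] (n : ℕ) (hn : 7 ≤ n) (hcard : Fintype.card F = 2 ^ n)
    (u : F) (hu : u ≠ 0) : {al : F | Tr n (al * u) = 0}.ncard = 2 ^ (n - 1) := by
  classical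
  obtain ⟨hadd, -, hbit, ⟨x1, hx1⟩, -, -⟩ := hTRC F n (by omega) hcard
  have t2 : (2 : F) = 0 := CharTwo.two_eq_zero
  have h1 : {al : F | Tr n (al * u) = 0}ᶜ = (fun x => x + x1 * u⁻¹) ''
      {al : F | Tr n (al * u) = 0} := by
    ext a
    simp only [Set.mem_compl_iff, Set.mem_ofPred_eq, Set.mem_image]
    constructor
    · intro ha
      refine ⟨a + x1 * u⁻¹, ?_, ?_⟩
      · rw [add_mul, inv_mul_cancel_right₀ hu, hadd, hx1]
        rcases hbit (a * u) with h | h
        · exact absurd h ha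
        · rw [h]; linear_combination t2
      · linear_combination (x1 * u⁻¹) * t2
    · rintro ⟨b, hb, rfl⟩
      rw [add_mul, inv_mul_cancel_right₀ hu, hadd, hx1, hb, zero_add]
      exact one_ne_zero
  have h2 : ({al : F | Tr n (al * u) = 0}ᶜ).ncard = {al : F | Tr n (al * u) = 0}.ncard := by
    rw [h1]
    exact Set.ncard_image_of_injective _ (add_left_injective _)
  have h3 := Set.ncard_add_ncard_compl {al : F | Tr n (al * u) = 0}
  rw [h2, Nat.card_eq_fintype_card, hcard] at h3
  have h4 : 2 ^ n = 2 * 2 ^ (n - 1) := by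
    rw [← pow_succ']
    congr 1
    omega
  omega

/-- the number of functions -/
lemma count [Fintype F] [CharP F 2] (n : ℕ) (hn : 7 ≤ n) (hcard : Fintype.card F = 2 ^ n)
    (u : F) (hu : u ≠ 0) :
    {f : F → F | (∀ x, f x = 0 ∨ f x = 1) ∧ IsAPN (fun x => x ^ 3 + u * f x)}.ncard =
      2 ^ (2 * n + 1) := by
  classical
  have h1 : {f : F → F | (∀ x, f x = 0 ∨ f x = 1) ∧ IsAPN (fun x => x ^ 3 + u * f x)} =
      fpar n u '' ({al : F | Tr n (al * u) = 0} ×ˢ ((Set.univ : Set F) ×ˢ
        (({0, 1} : Set F) ×ˢ ({0, 1} : Set F)))) := by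
    ext f
    constructor
    · rintro ⟨hf, hA⟩
      obtain ⟨al, e, la, c, he, hc, h1, h2⟩ := (part1 n hn hcard u f hu hf).1 hA
      refine ⟨(al, la, e, c), ⟨h1, Set.mem_univ _, he, hc⟩, ?_⟩
      funext x
      rw [h2 x]
      rfl
    · rintro ⟨⟨al, la, e, c⟩, ⟨h1, -, he, hc⟩, rfl⟩
      obtain ⟨hadd, -, hbit, -⟩ := hTRC F n (by omega) hcard
      have t2 : (1 : F) + 1 = 0 := CharTwo.add_self_eq_zero 1
      have hb : ∀ a b : F, (a = 0 ∨ a = 1) → (b = 0 ∨ b = 1) → (a + b = 0 ∨ a + b = 1) := by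
        rintro a b (rfl | rfl) (rfl | rfl)
        · left; ring
        · right; ring
        · right; ring
        · left; exact t2
      have hm : ∀ a b : F, (a = 0 ∨ a = 1) → (b = 0 ∨ b = 1) → (a * b = 0 ∨ a * b = 1) := by
        rintro a b (rfl | rfl) (rfl | rfl)
        · left; ring
        · left; ring
        · left; ring
        · right; ring
      have hf : ∀ x, fpar n u (al, la, e, c) x = 0 ∨ fpar n u (al, la, e, c) x = 1 := fun x =>
        hb _ _ (hb _ _ (hb _ _ (hbit _) (hm _ _ he (hbit _))) (hbit _)) hc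
      exact ⟨hf, (part1 n hn hcard u _ hu hf).2 ⟨al, e, la, c, he, hc, h1, fun x => rfl⟩⟩
  rw [h1, Set.InjOn.ncard_image, Set.ncard_prod, Set.ncard_prod, Set.ncard_prod,
    ker_card n hn hcard u hu, Set.ncard_univ, Nat.card_eq_fintype_card, hcard,
    Set.ncard_pair zero_ne_one]
  · have h4 : 2 ^ n = 2 * 2 ^ (n - 1) := by
      rw [← pow_succ']
      congr 1
      omega
    have h5 : 2 ^ (2 * n + 1) = 2 * (2 ^ n * 2 ^ n) := by
      rw [← pow_add, ← pow_succ']
      congr 1
      omega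
    rw [h5, h4]
    ring
  · rintro s ⟨-, -, hs, -⟩ t ⟨-, -, ht, -⟩ h
    exact fpar_inj n hn hcard u hu s t hs ht h

/-- pairwise inequivalent functions equivalent to few normal forms -/
lemma few (S : Finset (F → F)) (m : ℕ) (N : ℕ → F → F)
    (hsymm : ∀ G H : F → F, CCZ G H → CCZ H G)
    (htrans : ∀ G H K : F → F, CCZ G H → CCZ H K → CCZ G K)
    (h : ∀ G ∈ S, ∃ j < m, CCZ G (N j)) (hS : ∀ G ∈ S, ∀ H ∈ S, CCZ G H → G = H) :
    S.card ≤ m := by
  classical
  have h' : ∀ G : F → F, ∃ j : ℕ, G ∈ S → j < m ∧ CCZ G (N j) := by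
    intro G
    by_cases hG : G ∈ S
    · obtain ⟨j, hj, hc⟩ := h G hG
      exact ⟨j, fun _ => ⟨hj, hc⟩⟩
    · exact ⟨0, fun hh => absurd hh hG⟩
  choose φ hφ using h'
  have := Finset.card_le_card_of_injOn (s := S) (t := Finset.range m) φ
    (fun G hG => Finset.mem_coe.2 (Finset.mem_range.2 (hφ G hG).1)) (by
      intro G hG H hH hGH
      have h1 := (hφ G hG).2
      have h2 := (hφ H hH).2
      rw [← hGH] at h2
      exact hS G hG H hH (htrans _ _ _ h1 (hsymm _ _ h2)))
  rwa [Finset.card_range] at this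

/-- for odd `n` every element is a cube -/
lemma cubes [Fintype F] (n : ℕ) (hn : Odd n) (hcard : Fintype.card F = 2 ^ n) (v : F)
    (hv : v ≠ 0) : ∃ mu : F, mu ≠ 0 ∧ v = mu ^ 3 := by
  classical
  have h1 : (Nat.card Fˣ).Coprime 3 := by
    rw [Nat.card_eq_fintype_card, Fintype.card_units, hcard]
    obtain ⟨m, rfl⟩ := hn
    have h4 : 4 ^ m % 3 = 1 := by
      rw [Nat.pow_mod]
      norm_num
    have h5 : 2 ^ (2 * m + 1) = 2 * 4 ^ m := by
      rw [pow_succ', pow_mul]
      norm_num
    have h6 : (2 ^ (2 * m + 1) - 1) % 3 = 1 := by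
      rw [h5]
      omega
    rw [Nat.coprime_comm]
    rw [Nat.Prime.coprime_iff_not_dvd (by norm_num)]
    omega
  obtain ⟨mu, hmu⟩ := (powCoprime h1).surjective (Units.mk0 v hv)
  refine ⟨mu, mu.ne_zero, ?_⟩
  have h2 := congrArg Units.val hmu
  simpa using h2.symm

/-- The switching class of `x ^ 3`: exact form and number of the APN functions `x ^ 3 + u f(x)`,
and at most four (two for odd `n`) CCZ classes of APN functions which differ in one coordinate
from a function extended affine equivalent to `x ^ 3`. -/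
theorem result (F : Type) [Field F] [Fintype F] (n : ℕ) (hn : 7 ≤ n)
    (hcard : Fintype.card F = 2 ^ n) :
    (∀ (u : F) (f : F → F), u ≠ 0 → (∀ x, f x = 0 ∨ f x = 1) →
      (IsAPN (fun x => x ^ 3 + u * f x) ↔
        ∃ al e la c : F, (e = 0 ∨ e = 1) ∧ (c = 0 ∨ c = 1) ∧ Tr n (al * u) = 0 ∧
          ∀ x, f x =
            Tr n (al * x ^ 3) + e * Tr n ((u ^ 3)⁻¹ * x ^ 9) + Tr n (la * x) + c)) ∧
    (∀ u : F, u ≠ 0 →
      {f : F → F | (∀ x, f x = 0 ∨ f x = 1) ∧ IsAPN (fun x => x ^ 3 + u * f x)}.ncard =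
        2 ^ (2 * n + 1)) ∧
    (∀ S : Finset (F → F), (∀ G ∈ S, IsAPN G ∧ ∃ H, EACube H ∧ Switch G H) →
      (∀ G ∈ S, ∀ H ∈ S, CCZ G H → G = H) → S.card ≤ 4 ∧ (Odd n → S.card ≤ 2)) := by
  have : CharP F 2 := charP_of_card_eq_prime_pow (f := n) hcard
  refine ⟨fun u f hu hf => part1 n hn hcard u f hu hf, fun u hu => count n hn hcard u hu, ?_⟩
  intro S hS hpair
  obtain ⟨-, hsymm, htrans, -, g, hg, hgen⟩ := hCLS F n (by omega) hcard
  have key : ∀ G ∈ S, ∃ u : F, u ≠ 0 ∧ (CCZ G (fun x => x ^ 3) ∨ CCZ G (Nf n u)) := by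
    intro G hG
    obtain ⟨hA, H, hH, hSw⟩ := hS G hG
    obtain ⟨G', u, hu, h1, h2, h3⟩ := reduce G H hH hSw hA
    refine ⟨u, hu, ?_⟩
    rcases normal n hn hcard u G' hu h1 h2 with h | h
    · left; exact htrans _ _ _ h3 h
    · right; exact htrans _ _ _ h3 h
  constructor
  · refine few S 4 (nf n g) hsymm htrans ?_ hpair
    intro G hG
    obtain ⟨u, hu, h | h⟩ := key G hG
    · refine ⟨3, by norm_num, ?_⟩
      unfold nf
      rw [if_neg (by norm_num)]
      exact h
    · obtain ⟨j, hj, hc⟩ := hgen u hu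
      refine ⟨j, by omega, ?_⟩
      unfold nf
      rw [if_pos hj]
      exact htrans _ _ _ h hc
  · intro hodd
    refine few S 2 (fun j => if j = 0 then (fun x => x ^ 3) else Nf n 1) hsymm htrans ?_ hpair
    intro G hG
    obtain ⟨u, hu, h | h⟩ := key G hG
    · refine ⟨0, by norm_num, ?_⟩
      show CCZ G (if (0 : ℕ) = 0 then (fun x => x ^ 3) else Nf n 1)
      rw [if_pos rfl]
      exact h
    · refine ⟨1, by norm_num, ?_⟩
      show CCZ G (if (1 : ℕ) = 0 then (fun x => x ^ 3) else Nf n 1)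
      rw [if_neg (by norm_num)]
      obtain ⟨mu, hmu, hv⟩ := cubes n hodd hcard u hu
      have h1 := CLSx.scale n (1 : F) mu one_ne_zero hmu
      rw [one_mul, ← hv] at h1
      exact htrans _ _ _ h (hsymm _ _ h1)

end Pool.Agent.Results.MP_d7c7d1_co.GoldSwitch
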