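import Pool.Agent.ABF.Main

/-!
# The number of plateaued APN functions (MP_d7c7d1_co)

Write `q = 2^n` and let `F` be a plateaued APN function on `F_2^n`. If `n` is odd there are at most
`2^(6 n^(4/3) q^(2/3))` such functions, if `n` is even at most `2^(6 n^(4/3) q^(5/6))`. Moreover `F`
is the only APN function which takes the values of `F` on a certain set of at most
`6 n^(1/3) q^(2/3)` (for odd `n`) or `6 n^(1/3) q^(5/6)` (for even `n`) points.

* `Pool.Agent.ABF.walsh F u v` is the sum of `(-1)^(u·x + v·F(x))` over all `x`.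
* `Pool.Agent.ABF.IsAPN F`: for `a ≠ 0` the equation `F(x + a) + F(x) = b` has at most two solutions.
* `Pool.Agent.ABF.IsPlateaued F`: for every `v ≠ 0` the numbers `walsh F u v` have at most one
  nonzero absolute value.

Idea. For a plateaued APN function every point `(x, y)` off the graph is the sum of three points of
the graph in many ways; the number of ways is given by the amplitudes of the components in a
hyperplane. For even `n` a vectorial function with `n - 1` coordinates has at least `2^(n/2 - 1) - 1`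
nonzero components which are not bent. The triples are disjoint, so a random set of points contains
a triple for every `(x, y)`.
-/

open Finset

namespace Pool.Agent.Results.MP_d7c7d1_co.PlateauedCount

open Pool.Agent.ABF

/-- The number of plateaued APN functions, and their determination by few values. -/
theorem result :
    (∀ n : ℕ, Odd n →
      (Nat.card {F : (Fin n → ZMod 2) → (Fin n → ZMod 2) // IsAPN F ∧ IsPlateaued F} : ℝ)
        ≤ 2 ^ (6 * (n : ℝ) ^ (4 / 3 : ℝ) * (2 : ℝ) ^ (2 * (n : ℝ) / 3))) ∧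
    (∀ n : ℕ, 0 < n → Even n →
      (Nat.card {F : (Fin n → ZMod 2) → (Fin n → ZMod 2) // IsAPN F ∧ IsPlateaued F} : ℝ)
        ≤ 2 ^ (6 * (n : ℝ) ^ (4 / 3 : ℝ) * (2 : ℝ) ^ (5 * (n : ℝ) / 6))) ∧
    (∀ n : ℕ, Odd n → ∀ F : (Fin n → ZMod 2) → (Fin n → ZMod 2), IsAPN F → IsPlateaued F →
      ∃ A : Finset (Fin n → ZMod 2),
        (A.card : ℝ) ≤ 6 * (n : ℝ) ^ (1 / 3 : ℝ) * (2 : ℝ) ^ (2 * (n : ℝ) / 3) ∧
        ∀ G : (Fin n → ZMod 2) → (Fin n → ZMod 2), IsAPN G → (∀ a ∈ A, G a = F a) → G = F) ∧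
    (∀ n : ℕ, 0 < n → Even n → ∀ F : (Fin n → ZMod 2) → (Fin n → ZMod 2), IsAPN F →
      IsPlateaued F → ∃ A : Finset (Fin n → ZMod 2),
        (A.card : ℝ) ≤ 6 * (n : ℝ) ^ (1 / 3 : ℝ) * (2 : ℝ) ^ (5 * (n : ℝ) / 6) ∧
        ∀ G : (Fin n → ZMod 2) → (Fin n → ZMod 2), IsAPN G → (∀ a ∈ A, G a = F a) → G = F) := by
  refine ⟨main_count_odd, ?_, fun n hn F hF hP => main_det_odd n hn hF hP, ?_⟩
  · rintro n hn ⟨m, rfl⟩
    exact main_count_even m (by omega)
  · rintro n hn ⟨m, rfl⟩ F hF hP
    exact main_det_even m (by omega) hF hP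

end Pool.Agent.Results.MP_d7c7d1_co.PlateauedCount
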