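import Pool.Agent.SYA.Main
import Pool.Agent.SYA.CONJ
import Pool.Agent.SYA.ARI
import Pool.Agent.SYA.EIG
import Pool.Agent.SYA.EI3
import Pool.Agent.SYA.DIM

/-!
# Quadratic functions with a long automorphism: polynomially many classes (MP_d7c7d1_co)

Let `k ≥ 1`. The quadratic functions `F` on `F_2^n` for which there are linear bijections `g, h`
with `F ∘ g + h ∘ F` affine, such that no power `g^j` or `h^j` with `1 ≤ j < 2^(n/k)` fixes a
nonzero vector, form at most `2^(40 k^4 n)` CCZ-classes, a polynomial in `2^n`. No APN assumption
is made. So if the number of APN functions grows faster than any polynomial, the functions must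
come from elsewhere.

* `Pool.Agent.SYA.IsQuad F`: the map `(x, y) ↦ F(x + y) + F(x) + F(y) + F(0)` is additive in `x`.
* `Pool.Agent.SYA.CCZ F G`: an affine permutation of `F_2^n × F_2^n` maps the graph of `F` onto the
  graph of `G`.
* `Pool.Agent.SYA.LongOrb k g`: for `1 ≤ j`, `j^k < 2^n` and `x ≠ 0` we have `g^j x ≠ x`.
* `Pool.Agent.SYA.LongSym k F`: there are linear bijections `g, h` with `LongOrb k g`,
  `LongOrb k h` and `F(g x) + h(F x)` affine in `x`.

Idea. Pass to odd powers of `g, h` of odd order. There are few pairs of conjugacy classes. The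
polarisation is `(g, h)`-equivariant, and over the algebraic closure the space of equivariant
bilinear maps has dimension the number of triples of eigenvalues with `x y = z`. All eigenvalues
have order at least `2^(n/k)` and the set of eigenvalues is closed under squaring, and among the
equations `x^(2^i) y^(2^j) = c` with `i, j < n/(2k)` at most two can hold: so a given `c` is a
product in at most `O(k^2)` ways.
-/

namespace Pool.Agent.Results.MP_d7c7d1_co.SymmetricCount

open Pool.Agent.SYA

/-- Quadratic functions with an automorphism whose orbits are long form at most `2^(40 k^4 n)`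
CCZ-classes. -/
theorem result : ∀ k n : ℕ, 1 ≤ k → 1 ≤ n →
    ∀ S : Finset ((Fin n → ZMod 2) → (Fin n → ZMod 2)),
      (∀ F ∈ S, IsQuad F ∧ LongSym k F) → (∀ F ∈ S, ∀ G ∈ S, CCZ F G → F = G) →
      S.card ≤ 2 ^ (40 * k ^ 4 * n) :=
  p_MAIN p_CONJ p_GEN p_COUNT p_EIG1 p_EIG2 p_EIG3 p_EIG4 p_DIM

end Pool.Agent.Results.MP_d7c7d1_co.SymmetricCount
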